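import Pool.Agent.Helper240.ZU.A1
set_option autoImplicit false
set_option linter.all false

namespace Pool.Agent.Y971.SR

open MeasureTheory Set Filter Topology

/-- the sawtooth function times a power -/
noncomputable def ph (u : ℝ) : ℝ := (Int.fract u - 1 / 2) * u ^ (-(3 / 2) : ℝ)

lemma pow_int {c : ℝ} (hc : 0 < c) : IntegrableOn (fun u : ℝ => u ^ (-(3 / 2) : ℝ)) (Ioi c) :=
  integrableOn_Ioi_rpow_of_lt (by norm_num) hc

lemma fr_int {c : ℝ} (hc : 0 < c) :
    IntegrableOn (fun u : ℝ => Int.fract u * u ^ (-(3 / 2) : ℝ)) (Ioi c) := by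
  refine Integrable.bdd_mul (c := 1) (pow_int hc) measurable_fract.aestronglyMeasurable ?_
  refine Filter.Eventually.of_forall (fun u => ?_)
  rw [Real.norm_eq_abs, Int.abs_fract]
  exact (Int.fract_lt_one u).le

lemma ph_int {c : ℝ} (hc : 0 < c) : IntegrableOn ph (Ioi c) := by
  have h : ph = fun u => Int.fract u * u ^ (-(3 / 2) : ℝ) - 1 / 2 * u ^ (-(3 / 2) : ℝ) := by
    funext u
    unfold ph
    ring
  rw [h]
  exact (fr_int hc).sub ((pow_int hc).const_mul _)

lemma ph_ii {a b : ℝ} (ha : 0 < a) (hab : a ≤ b) : IntervalIntegrable ph volume a b := by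
  rw [intervalIntegrable_iff_integrableOn_Ioc_of_le hab]
  exact (ph_int ha).mono_set Ioc_subset_Ioi_self

lemma fract_of {n : ℕ} {u : ℝ} (h1 : (n : ℝ) < u) (h2 : u < n + 1) : Int.fract u = u - n := by
  rw [Int.fract_eq_iff]
  refine ⟨by linarith, by linarith, n, by push_cast; ring⟩

lemma ph_le (n : ℕ) (hn : 1 ≤ n) : ∫ u in (n : ℝ)..(n + 1 : ℝ), ph u ≤ 0 := by
  have hn' : (1 : ℝ) ≤ n := by exact_mod_cast hn
  set c : ℝ := ((n : ℝ) + 1 / 2) ^ (-(3 / 2) : ℝ) with hc
  have h1 : ∫ u in (n : ℝ)..(n + 1 : ℝ), ph u ≤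
      ∫ u in (n : ℝ)..(n + 1 : ℝ), c * (u - (n + 1 / 2)) := by
    apply intervalIntegral.integral_mono_on_of_le_Ioo (by linarith) (ph_ii (by linarith) (by linarith))
    · apply Continuous.intervalIntegrable
      fun_prop
    · intro u hu
      have hu1 := hu.1
      have hu2 := hu.2
      unfold ph
      rw [fract_of hu1 hu2]
      rcases le_total u (n + 1 / 2) with h | h
      · have h3 : c ≤ u ^ (-(3 / 2) : ℝ) :=
          Real.rpow_le_rpow_of_nonpos (by linarith) h (by norm_num)
        nlinarith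
      · have h3 : u ^ (-(3 / 2) : ℝ) ≤ c :=
          Real.rpow_le_rpow_of_nonpos (by linarith) h (by norm_num)
        nlinarith
  refine h1.trans (le_of_eq ?_)
  rw [intervalIntegral.integral_const_mul, intervalIntegral.integral_sub (by simp) (by simp)]
  simp
  right
  ring

lemma ph_Ioi : ∫ u in Ioi (4 : ℝ), ph u ≤ 0 := by
  have h1 : ∀ N : ℕ, ∫ u in (4 : ℝ)..(4 + N : ℝ), ph u ≤ 0 := by
    intro N
    induction N with
    | zero => simp
    | succ N ih =>
      have e := intervalIntegral.integral_add_adjacent_intervals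
        (ph_ii (a := 4) (b := 4 + N) (by norm_num) (by linarith [(Nat.cast_nonneg N : (0 : ℝ) ≤ N)]))
        (ph_ii (a := 4 + N) (b := 4 + N + 1) (by positivity) (by linarith))
      have h2 := ph_le (4 + N) (by omega)
      push_cast at h2 ⊢
      rw [← add_assoc, ← e]
      linarith
  have h2 := intervalIntegral_tendsto_integral_Ioi (4 : ℝ) (ph_int (c := 4) (by norm_num))
    (tendsto_atTop_add_const_left atTop (4 : ℝ) tendsto_natCast_atTop_atTop)
  exact le_of_tendsto' h2 h1

lemma fr_Ioi : ∫ u in Ioi (4 : ℝ), Int.fract u * u ^ (-(3 / 2) : ℝ) ≤ 1 / 2 := by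
  have h := ph_Ioi
  have e : ph = fun u => Int.fract u * u ^ (-(3 / 2) : ℝ) - 1 / 2 * u ^ (-(3 / 2) : ℝ) := by
    funext u
    unfold ph
    ring
  rw [e, integral_sub (fr_int (by norm_num)) ((pow_int (by norm_num)).const_mul _),
    integral_const_mul, integral_Ioi_rpow_of_lt (by norm_num) (by norm_num)] at h
  have h4 : (4 : ℝ) ^ (-(3 / 2) + 1 : ℝ) = 1 / 2 := by
    rw [show (4 : ℝ) = 2 ^ (2 : ℝ) by norm_num, ← Real.rpow_mul (by norm_num),
      show (2 : ℝ) * (-(3 / 2) + 1) = -1 by norm_num, Real.rpow_neg_one]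
    norm_num
  rw [h4] at h
  norm_num at h
  linarith

/-- the real part of the integrand -/
noncomputable def hr (t u : ℝ) : ℝ := Int.fract u * (u ^ (-(3 / 2) : ℝ) * Real.cos (t * Real.log u))

lemma hr_int (t : ℝ) {c : ℝ} (hc : 0 < c) : IntegrableOn (hr t) (Ioi c) := by
  have h : hr t = fun u => Real.cos (t * Real.log u) * (Int.fract u * u ^ (-(3 / 2) : ℝ)) := by
    funext u
    unfold hr
    ring
  rw [h]
  refine Integrable.bdd_mul (c := 1) (fr_int hc) ?_ ?_
  · exact (Real.measurable_cos.comp (Real.measurable_log.const_mul t)).aestronglyMeasurable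
  · refine Filter.Eventually.of_forall (fun u => ?_)
    rw [Real.norm_eq_abs]
    exact Real.abs_cos_le_one _

lemma hr_re (t u : ℝ) (hu : 0 < u) :
    (((Int.fract u : ℝ) : ℂ) * (u : ℂ) ^ (-(1 / 2 + t * Complex.I) - 1)).re = hr t u := by
  rw [Complex.re_ofReal_mul, Complex.cpow_def_of_ne_zero (by exact_mod_cast hu.ne'),
    ← Complex.ofReal_log hu.le, Complex.exp_re]
  have e1 : (((Real.log u : ℝ) : ℂ) * (-(1 / 2 + t * Complex.I) - 1)).re =
      Real.log u * (-(3 / 2)) := by
    rw [Complex.re_ofReal_mul]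
    simp
    ring_nf
  have e2 : (((Real.log u : ℝ) : ℂ) * (-(1 / 2 + t * Complex.I) - 1)).im =
      -(t * Real.log u) := by
    rw [Complex.im_ofReal_mul]
    simp [mul_comm]
  rw [e1, e2, Real.cos_neg, ← Real.rpow_def_of_pos hu]
  rfl

lemma hr_bd (t : ℝ) (ht : 0 < t) (ht1 : t ≤ 1) : -(37 / 100) ≤ ∫ u in Ioi (1 : ℝ), hr t u := by
  have hl2 := Real.log_two_lt_d9
  have hl2p : 0 < Real.log 2 := Real.log_pos one_lt_two
  have hpi := Real.pi_gt_three
  have i1 := hr_int t (c := 1) one_pos
  have s1 : ∫ u in Ioi (1 : ℝ), hr t u = (∫ u in Ioc (1 : ℝ) 2, hr t u) +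
      ((∫ u in Ioc (2 : ℝ) 4, hr t u) + ∫ u in Ioi (4 : ℝ), hr t u) := by
    rw [← setIntegral_union (by
        rw [Set.disjoint_left]; intro x hx hx'; exact absurd hx.2 (not_le.2 hx')) measurableSet_Ioi
      (i1.mono_set (fun x hx => lt_trans (by norm_num) hx.1)) (hr_int t (by norm_num)),
      Ioc_union_Ioi_eq_Ioi (by norm_num), ← setIntegral_union (by
        rw [Set.disjoint_left]; intro x hx hx'; exact absurd hx.2 (not_le.2 hx')) measurableSet_Ioi
      (i1.mono_set (fun x hx => hx.1)) (hr_int t (by norm_num)),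
      Ioc_union_Ioi_eq_Ioi (by norm_num)]
  have b1 : 13 / 100 ≤ ∫ u in Ioc (1 : ℝ) 2, hr t u := by
    rw [← intervalIntegral.integral_of_le (by norm_num)]
    have h : ∫ u in (1 : ℝ)..2, (26 / 100) * (u - 1) ≤ ∫ u in (1 : ℝ)..2, hr t u := by
      apply intervalIntegral.integral_mono_on_of_le_Ioo (by norm_num)
      · apply Continuous.intervalIntegrable
        fun_prop
      · rw [intervalIntegrable_iff_integrableOn_Ioc_of_le (by norm_num)]
        exact i1.mono_set Ioc_subset_Ioi_self
      · intro u hu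
        have hu1 := hu.1
        have hu2 := hu.2
        have hf : Int.fract u = u - 1 := by
          have := fract_of (n := 1) (u := u) (by exact_mod_cast hu1) (by push_cast; linarith)
          rw [this]
          push_cast
          ring
        unfold hr
        rw [hf]
        have hlu : 0 ≤ Real.log u := Real.log_nonneg hu1.le
        have hlu2 : Real.log u ≤ Real.log 2 := Real.log_le_log (by linarith) hu2.le
        have hx0 : 0 ≤ t * Real.log u := by positivity
        have hx1 : t * Real.log u ≤ 7 / 10 := by nlinarith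
        have hcos : 75 / 100 ≤ Real.cos (t * Real.log u) := by
          have := Real.one_sub_sq_div_two_le_cos (x := t * Real.log u)
          nlinarith
        have hp : 35 / 100 ≤ u ^ (-(3 / 2) : ℝ) := by
          have h1 : (2 : ℝ) ^ (-(3 / 2) : ℝ) ≤ u ^ (-(3 / 2) : ℝ) :=
            Real.rpow_le_rpow_of_nonpos (by linarith) hu2.le (by norm_num)
          refine le_trans ?_ h1
          rw [Real.rpow_neg (by norm_num)]
          have h2 : (2 : ℝ) ^ (3 / 2 : ℝ) = 2 * √2 := by
            rw [show (3 / 2 : ℝ) = 1 + 1 / 2 by norm_num, Real.rpow_add (by norm_num),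
              Real.rpow_one, Real.sqrt_eq_rpow]
          rw [h2]
          have h3 : √2 < 1.42 := by
            rw [Real.sqrt_lt' (by norm_num)]
            norm_num
          have h4 : 0 < √2 := by positivity
          rw [le_inv_comm₀ (by norm_num) (by positivity)]
          norm_num at h3 ⊢
          linarith
        have hpc : 26 / 100 ≤ u ^ (-(3 / 2) : ℝ) * Real.cos (t * Real.log u) := by
          nlinarith
        nlinarith
    refine le_trans (le_of_eq ?_) h
    rw [intervalIntegral.integral_const_mul, intervalIntegral.integral_sub (by simp) (by simp)]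
    simp
    norm_num
  have b2 : 0 ≤ ∫ u in Ioc (2 : ℝ) 4, hr t u := by
    refine setIntegral_nonneg measurableSet_Ioc fun u hu => ?_
    have hu1 := hu.1
    have hu2 := hu.2
    unfold hr
    have hlu : 0 ≤ Real.log u := Real.log_nonneg (by linarith)
    have hlu2 : Real.log u ≤ 2 * Real.log 2 := by
      rw [← Real.log_rpow (by norm_num)]
      apply Real.log_le_log (by linarith)
      norm_num
      exact hu2
    have hx0 : 0 ≤ t * Real.log u := by positivity
    have hx1 : t * Real.log u ≤ 14 / 10 := by nlinarith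
    refine mul_nonneg (Int.fract_nonneg _) (mul_nonneg (Real.rpow_nonneg (by linarith) _) ?_)
    apply Real.cos_nonneg_of_neg_pi_div_two_le_of_le <;> linarith
  have b3 : -(1 / 2) ≤ ∫ u in Ioi (4 : ℝ), hr t u := by
    have h : ∫ u in Ioi (4 : ℝ), -(Int.fract u * u ^ (-(3 / 2) : ℝ)) ≤ ∫ u in Ioi (4 : ℝ), hr t u := by
      refine setIntegral_mono_on (fr_int (by norm_num)).neg (hr_int t (by norm_num))
        measurableSet_Ioi fun u hu => ?_
      have hu0 : (0 : ℝ) < u := lt_trans (by norm_num) hu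
      unfold hr
      have h1 : 0 ≤ Int.fract u * u ^ (-(3 / 2) : ℝ) :=
        mul_nonneg (Int.fract_nonneg _) (Real.rpow_nonneg hu0.le _)
      have h2 := Real.neg_one_le_cos (t * Real.log u)
      nlinarith
    rw [integral_neg] at h
    have := fr_Ioi
    linarith
  rw [s1]
  linarith

/-- **no zeros of zeta on the critical line at height at most 1** -/
theorem t_LOW : ∀ t : ℝ, 0 < t → t ≤ 1 → riemannZeta (1 / 2 + t * Complex.I) ≠ 0 := by
  intro t ht ht1 h0
  set s : ℂ := 1 / 2 + t * Complex.I with hs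
  have hre : s.re = 1 / 2 := by simp [hs]
  have him : s.im = t := by simp [hs]
  have hs0 : s ≠ 0 := fun h => by
    have := congrArg Complex.re h
    rw [hre] at this
    norm_num at this
  have hs1 : s ≠ 1 := fun h => by
    have := congrArg Complex.re h
    rw [hre] at this
    norm_num at this
  have hs1' : s - 1 ≠ 0 := sub_ne_zero.2 hs1
  have hz := ZU.J_a1.zf_one s (by rw [hre]; norm_num) hs1
  rw [h0] at hz
  have hint := ZU.J_a1.zf_int 1 one_pos s (by rw [hre]; norm_num)
  have hI : ∫ u in Ioi (1 : ℝ), ((Int.fract u : ℝ) : ℂ) * (u : ℂ) ^ (-s - 1) = 1 / (s - 1) := by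
    have h1 : s * ∫ u in Ioi (1 : ℝ), ((Int.fract u : ℝ) : ℂ) * (u : ℂ) ^ (-s - 1) =
        s * (1 / (s - 1)) := by
      have h2 : s * (1 / (s - 1)) = 1 + 1 / (s - 1) := by
        field_simp
        ring
      rw [h2]
      linear_combination hz
    exact mul_left_cancel₀ hs0 h1
  have hR : (∫ u in Ioi (1 : ℝ), ((Int.fract u : ℝ) : ℂ) * (u : ℂ) ^ (-s - 1)).re =
      ∫ u in Ioi (1 : ℝ), hr t u := by
    have h1 := Complex.reCLM.integral_comp_comm hint
    rw [Complex.reCLM_apply] at h1
    rw [← h1]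
    refine setIntegral_congr_fun measurableSet_Ioi fun u hu => ?_
    exact hr_re t u (lt_trans one_pos hu)
  have hb := hr_bd t ht ht1
  rw [← hR, hI, one_div, Complex.inv_re, Complex.normSq_apply] at hb
  simp only [Complex.sub_re, Complex.sub_im, Complex.one_re, Complex.one_im, hre, him] at hb
  have h3 : 0 < (1 / 2 - 1) * (1 / 2 - 1) + (t - 0) * (t - 0) := by nlinarith
  rw [le_div_iff₀ h3] at hb
  nlinarith

end Pool.Agent.Y971.SR
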